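import Pool.Agent.W829.RP.Defs

/-!
# Project RP: the wet part of a convex body, upper bound
-/

set_option autoImplicit false

open MeasureTheory Set Module
open scoped ENNReal

namespace Pool.Agent.W397.RP

open Pool.Agent.W829.RP

section gen

variable {V : Type} [NormedAddCommGroup V] [NormedSpace ℝ V] [FiniteDimensional ℝ V]
  [MeasureSpace V] [BorelSpace V] [(volume : Measure V).IsAddHaarMeasure]

lemma hyper_null {ℓ : V →L[ℝ] ℝ} (hℓ : ℓ ≠ 0) (c : ℝ) : volume {x : V | ℓ x = c} = 0 := by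
  by_cases hne : ∃ x0, ℓ x0 = c
  · obtain ⟨x0, hx0⟩ := hne
    set A : AffineSubspace ℝ V := AffineSubspace.mk' x0 (LinearMap.ker ℓ.toLinearMap) with hA
    have hsub : {x : V | ℓ x = c} ⊆ (A : Set V) := by
      intro x hx
      rw [SetLike.mem_coe, hA, AffineSubspace.mem_mk', LinearMap.mem_ker, vsub_eq_sub]
      change ℓ (x - x0) = 0
      rw [map_sub, hx0]
      exact sub_eq_zero.2 hx
    have hAt : A ≠ ⊤ := by
      intro h
      have h1 : A.direction = ⊤ := by rw [h, AffineSubspace.direction_top]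
      rw [hA, AffineSubspace.direction_mk'] at h1
      apply hℓ
      ext x
      have : x ∈ LinearMap.ker ℓ.toLinearMap := by rw [h1]; trivial
      exact this
    exact measure_mono_null hsub (Measure.addHaar_affineSubspace volume A hAt)
  · have : {x : V | ℓ x = c} = ∅ := by
      ext x
      constructor
      · exact fun h => hne ⟨x, h⟩
      · exact fun h => h.elim
    rw [this, measure_empty]

lemma mac_vol (K : Set V) (y : V) (r : ℝ) :
    volume (mac K y r) = ENNReal.ofReal |r ^ finrank ℝ V| * volume (mac K y 1) := by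
  rw [← Measure.addHaar_image_homothety volume y r (mac K y 1)]
  congr 1
  ext x
  constructor
  · rintro ⟨p, rfl, h1, h2⟩
    refine ⟨y + p, ⟨p, by rw [one_smul], h1, h2⟩, ?_⟩
    rw [AffineMap.homothety_apply, vsub_eq_sub, vadd_eq_add, add_sub_cancel_left, add_comm]
  · rintro ⟨_, ⟨p, rfl, h1, h2⟩, rfl⟩
    refine ⟨p, ?_, h1, h2⟩
    rw [AffineMap.homothety_apply, vsub_eq_sub, vadd_eq_add, one_smul, add_sub_cancel_left,
      add_comm]

lemma height_pos {K : Set V} (hK : IsBody K) {t : ℝ} (ht : 0 < t) {y : V} {ℓ : V →L[ℝ] ℝ} {s : ℝ}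
    (h : Good K t y ℓ s) : 0 < sSup (ℓ '' K) - s := by
  have hbdd : BddAbove (ℓ '' K) := (hK.2.1.image ℓ.continuous).bddAbove
  have hpos : 0 < volume (cap K ℓ s) := lt_of_lt_of_le (ENNReal.ofReal_pos.2 (by positivity)) h.lo
  by_contra hcon
  have hℓ : ℓ ≠ 0 := by
    rintro rfl
    have := h.norm
    rw [norm_zero] at this
    norm_num at this
  have hsub : cap K ℓ s ⊆ {x | ℓ x = s} := by
    rintro x ⟨hx, hxs⟩
    have : ℓ x ≤ sSup (ℓ '' K) := le_csSup hbdd (mem_image_of_mem _ hx)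
    exact le_antisymm (by linarith) hxs
  exact hpos.ne' (measure_mono_null hsub (hyper_null hℓ s))

end gen

lemma term_bound (k : ℕ) (t h : ℝ) (ht : 0 < t) (hh : 0 < h) :
    t ^ (((k : ℝ) - 1) / (k + 1)) ≤ h ^ k / t + t / h := by
  set u : ℝ := t ^ (2 / ((k : ℝ) + 1)) with hu
  have hup : 0 < u := Real.rpow_pos_of_pos ht _
  have hk : (0 : ℝ) < (k : ℝ) + 1 := by positivity
  rcases le_total h u with h1 | h1
  · have h2 : t ^ (((k : ℝ) - 1) / (k + 1)) = t / u := by
      rw [hu, ← Real.rpow_one t, ← Real.rpow_mul ht.le, ← Real.rpow_mul ht.le,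
        ← Real.rpow_sub ht]
      congr 1
      field_simp
      ring
    rw [h2]
    have h3 : t / u ≤ t / h := div_le_div_of_nonneg_left ht.le hh h1
    have h4 : 0 ≤ h ^ k / t := by positivity
    linarith
  · have h2 : t ^ (((k : ℝ) - 1) / (k + 1)) = u ^ k / t := by
      rw [hu, ← Real.rpow_natCast, ← Real.rpow_mul ht.le]
      rw [show t ^ (2 / ((k : ℝ) + 1) * (k : ℝ)) / t = t ^ (2 / ((k : ℝ) + 1) * (k : ℝ)) / t ^ (1 : ℝ) by
        rw [Real.rpow_one], ← Real.rpow_sub ht]
      congr 1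
      field_simp
      ring
    rw [h2]
    have h3 : u ^ k / t ≤ h ^ k / t :=
      div_le_div_of_nonneg_right (pow_le_pow_left₀ hup.le h1 k) ht.le
    have h4 : 0 ≤ t / h := by positivity
    linarith

theorem fu : S_CV → S_COV → S_C1 → S_C2 → S_FU := by
  intro hCV hCOV hC1 hC2 k K hK hk
  have hfin : finrank ℝ (E k) = k := finrank_euclideanSpace_fin
  have hfin1 : 1 ≤ finrank ℝ (E k) := by rw [hfin]; exact hk
  obtain ⟨C1, t1, hC1p, ht1, H1⟩ := hC1 (E k) K hK hfin1
  obtain ⟨C2, t2, hC2p, ht2, H2⟩ := hC2 k K hK hk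
  have hVtop : volume K ≠ ⊤ := hK.2.1.measure_ne_top
  have hVpos : 0 < volume K := by
    have := (isOpen_interior.measure_pos volume hK.2.2)
    exact lt_of_lt_of_le this (measure_mono interior_subset)
  set v : ℝ := (volume K).toReal with hv
  have hvp : 0 < v := ENNReal.toReal_pos hVpos.ne' hVtop
  have hVv : volume K = ENNReal.ofReal v := (ENNReal.ofReal_toReal hVtop).symm
  set t3 : ℝ := v / (2 ^ k * 2) with ht3
  have ht3p : 0 < t3 := by positivity
  set t0 : ℝ := min (min t1 t2) t3 with ht0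
  have ht0p : 0 < t0 := lt_min (lt_min ht1 ht2) ht3p
  have hwetK : ∀ τ, wet K τ ⊆ K := fun τ x hx => hx.1
  set e : ℝ := 2 / ((k : ℝ) + 1) with he
  set L : ℝ := 6 * (k : ℝ) + 7 with hL
  have hLp : 0 < L := by positivity
  -- small `t`
  have hsmall : ∀ t : ℝ, 0 < t → t ≤ t0 →
      volume (wet K (ENNReal.ofReal t)) ≤ ENNReal.ofReal ((C1 + C2) * L ^ k * t ^ e) := by
    intro t ht htt
    have htt1 : t ≤ t1 := htt.trans ((min_le_left _ _).trans (min_le_left _ _))
    have htt2 : t ≤ t2 := htt.trans ((min_le_left _ _).trans (min_le_right _ _))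
    have htt3 : t ≤ t3 := htt.trans (min_le_right _ _)
    have h2t : 2 ^ k * t < v := by
      have h1 : 2 ^ k * t ≤ 2 ^ k * t3 := mul_le_mul_of_nonneg_left htt3 (by positivity)
      have h2 : 2 ^ k * t3 = v / 2 := by rw [ht3]; field_simp
      linarith
    have htv : t < v := by
      have h1 : (1 : ℝ) ≤ 2 ^ k := one_le_pow₀ (by norm_num)
      nlinarith
    obtain ⟨N, y, ℓ, s, hG, hdis, hcov⟩ := hCOV (E k) K hK hfin1 t ht (by
      rw [hfin, hVv]
      exact (ENNReal.ofReal_lt_ofReal_iff hvp).2 h2t)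
    have hN : (N : ℝ) * t ^ (((k : ℝ) - 1) / (k + 1)) ≤ C1 + C2 := by
      have h1 := H1 t ht htt1 N y ℓ s hG hdis
      have h2 := H2 t ht htt2 N y ℓ s hG hdis
      calc (N : ℝ) * t ^ (((k : ℝ) - 1) / (k + 1))
          = ∑ i : Fin N, t ^ (((k : ℝ) - 1) / (k + 1)) := by
            rw [Finset.sum_const, Finset.card_univ, Fintype.card_fin, nsmul_eq_mul]
        _ ≤ ∑ i : Fin N, ((sSup (ℓ i '' K) - s i) ^ k / t + t / (sSup (ℓ i '' K) - s i)) :=
            Finset.sum_le_sum fun i _ => term_bound k t _ ht (height_pos hK ht (hG i))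
        _ = ∑ i : Fin N, (sSup (ℓ i '' K) - s i) ^ k / t +
            ∑ i : Fin N, t / (sSup (ℓ i '' K) - s i) := Finset.sum_add_distrib
        _ ≤ C1 + C2 := by linarith
    have hsub : wet K (ENNReal.ofReal t) ⊆ ⋃ i, mac K (y i) L := by
      rintro x ⟨hx, hxv⟩
      rw [vf, iInf_lt_iff] at hxv
      obtain ⟨ℓ', hℓ'⟩ := hxv
      have hℓ0 : ℓ' ≠ 0 := by
        rintro rfl
        have h1 : cap K (0 : E k →L[ℝ] ℝ) ((0 : E k →L[ℝ] ℝ) x) = K := by
          ext z
          exact ⟨fun h => h.1, fun h => ⟨h, le_rfl⟩⟩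
        rw [h1, hVv] at hℓ'
        have := (ENNReal.ofReal_lt_ofReal_iff ht).1 hℓ'
        linarith
      obtain ⟨s', hs', hvol⟩ := (hCV (E k) K hK ℓ' hℓ0 (ℓ' x) (ENNReal.ofReal t)).1 hℓ'.le (by
        rw [hVv]; exact ENNReal.ofReal_le_ofReal htv.le)
      obtain ⟨i, hi, -⟩ := hcov ℓ' s' (by
        rw [hvol]; exact ENNReal.ofReal_le_ofReal (by linarith)) hvol.le
      rw [hfin] at hi
      exact mem_iUnion.2 ⟨i, hi ⟨hx, hs'⟩⟩
    have hmac : ∀ i, volume (mac K (y i) L) ≤ ENNReal.ofReal (L ^ k * t) := by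
      intro i
      rw [mac_vol, hfin, abs_of_pos (by positivity), ENNReal.ofReal_mul (by positivity)]
      exact mul_le_mul_right ((measure_mono (hG i).sup).trans (hG i).hi) _
    calc volume (wet K (ENNReal.ofReal t)) ≤ volume (⋃ i, mac K (y i) L) := measure_mono hsub
      _ ≤ ∑ i, volume (mac K (y i) L) := measure_iUnion_fintype_le _ _
      _ ≤ ∑ i : Fin N, ENNReal.ofReal (L ^ k * t) := Finset.sum_le_sum fun i _ => hmac i
      _ = ENNReal.ofReal (N * (L ^ k * t)) := by
          rw [Finset.sum_const, Finset.card_univ, Fintype.card_fin, nsmul_eq_mul,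
            ENNReal.ofReal_mul (Nat.cast_nonneg N), ENNReal.ofReal_natCast]
      _ ≤ ENNReal.ofReal ((C1 + C2) * L ^ k * t ^ e) := by
          apply ENNReal.ofReal_le_ofReal
          have h1 : t = t ^ (((k : ℝ) - 1) / (k + 1)) * t ^ e := by
            rw [← Real.rpow_add ht, he]
            have : ((k : ℝ) - 1) / (k + 1) + 2 / ((k : ℝ) + 1) = 1 := by
              field_simp
              ring
            rw [this, Real.rpow_one]
          have h2 : (N : ℝ) * (L ^ k * t) =
              (N * t ^ (((k : ℝ) - 1) / (k + 1))) * (L ^ k * t ^ e) := by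
            conv_lhs => rw [h1]
            ring
          rw [h2]
          have h3 : (0 : ℝ) ≤ L ^ k * t ^ e :=
            mul_nonneg (by positivity) (Real.rpow_nonneg ht.le _)
          calc (N * t ^ (((k : ℝ) - 1) / (k + 1))) * (L ^ k * t ^ e)
              ≤ (C1 + C2) * (L ^ k * t ^ e) := mul_le_mul_of_nonneg_right hN h3
            _ = _ := by ring
  have hpw : 0 < t0 ^ e := Real.rpow_pos_of_pos ht0p _
  refine ⟨(C1 + C2) * L ^ k + v / t0 ^ e, by positivity, fun s hs => ?_⟩
  rcases le_total s t0 with h | h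
  · refine (hsmall s hs h).trans (ENNReal.ofReal_le_ofReal ?_)
    have h1 : 0 ≤ v / t0 ^ e * s ^ e :=
      mul_nonneg (by positivity) (Real.rpow_nonneg hs.le _)
    rw [add_mul]
    linarith
  · refine (measure_mono (hwetK _)).trans ?_
    rw [hVv]
    apply ENNReal.ofReal_le_ofReal
    have h1 : t0 ^ e ≤ s ^ e := Real.rpow_le_rpow ht0p.le h (by rw [he]; positivity)
    have h2 : v ≤ v / t0 ^ e * s ^ e := by
      rw [div_mul_eq_mul_div, le_div_iff₀ hpw]
      exact mul_le_mul_of_nonneg_left h1 hvp.le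
    have h3 : 0 ≤ (C1 + C2) * L ^ k * s ^ e :=
      mul_nonneg (by positivity) (Real.rpow_nonneg hs.le _)
    rw [add_mul]
    linarith

end Pool.Agent.W397.RP
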