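import Pool.Agent.W829.RP.Defs

/-!
# Project RP: small caps are comparable to Macbeath regions
-/

set_option autoImplicit false

open MeasureTheory Set Module
open scoped ENNReal

namespace Pool.Agent.W397.RP

open Pool.Agent.W829.RP

lemma comb4 {V : Type} [NormedAddCommGroup V] [NormedSpace ℝ V] {K : Set V} (hK : Convex ℝ K)
    {x1 x2 x3 x4 : V} (h1 : x1 ∈ K) (h2 : x2 ∈ K) (h3 : x3 ∈ K) (h4 : x4 ∈ K) {a b c d : ℝ}
    (ha : 0 ≤ a) (hb : 0 ≤ b) (hc : 0 ≤ c) (hd : 0 ≤ d) (h : a + b + c + d = 1) :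
    a • x1 + b • x2 + c • x3 + d • x4 ∈ K := by
  have := hK.sum_mem (t := Finset.univ) (w := ![a, b, c, d]) (z := ![x1, x2, x3, x4])
    (by intro i _; fin_cases i <;> simp [ha, hb, hc, hd]) (by simp [Fin.sum_univ_four, h])
    (by intro i _; fin_cases i <;> simp [h1, h2, h3, h4])
  simpa [Fin.sum_univ_four] using this

theorem reg : S_SC → S_RAD → S_REG := by
  intro hSC hRAD V _ _ _ _ _ _ K hK hD ℓ s hpos hsmall
  obtain ⟨hc, hcomp, hint⟩ := hK
  have hKne : K.Nonempty := hint.mono interior_subset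
  obtain ⟨z, hz, hzmax⟩ := hcomp.exists_isMaxOn hKne ℓ.continuous.continuousOn
  obtain ⟨q, hq, hqmin⟩ := hcomp.exists_isMinOn hKne ℓ.continuous.continuousOn
  replace hzmax : ∀ x ∈ K, ℓ x ≤ ℓ z := fun x hx => hzmax hx
  replace hqmin : ∀ x ∈ K, ℓ q ≤ ℓ x := fun x hx => hqmin hx
  have hsup : sSup (ℓ '' K) = ℓ z :=
    IsGreatest.csSup_eq ⟨mem_image_of_mem _ hz, by rintro _ ⟨x, hx, rfl⟩; exact hzmax x hx⟩
  set D : ℝ := (finrank ℝ V : ℝ) with hDd
  have hD1 : 1 ≤ D := by rw [hDd]; exact_mod_cast hD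
  -- the cap is not empty
  have hh0 : s ≤ ℓ z := by
    obtain ⟨x, hx1, hx2⟩ := nonempty_of_measure_ne_zero hpos.ne'
    exact hx2.trans (hzmax x hx1)
  have hW : ℓ z - s < (ℓ z - ℓ q) / 2 := by
    by_contra hcon
    rw [not_lt] at hcon
    have h1 := hSC V K ⟨hc, hcomp, hint⟩ ℓ z hz hzmax (1 / 2) (ℓ z - ℓ q) (by norm_num)
      (by norm_num) (by linarith [hqmin z hz])
    have h2 : cap K ℓ (ℓ z - (ℓ z - ℓ q)) = K := by
      ext x
      constructor
      · exact fun h => h.1
      · exact fun h => ⟨h, by linarith [hqmin x h]⟩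
    have h3 : cap K ℓ (ℓ z - 1 / 2 * (ℓ z - ℓ q)) ⊆ cap K ℓ s := fun x hx =>
      ⟨hx.1, by linarith [hx.2]⟩
    rw [h2] at h1
    have h4 := h1.trans (measure_mono h3)
    have h5 : volume K ≤ ENNReal.ofReal (2 ^ finrank ℝ V) * volume (cap K ℓ s) := by
      calc volume K = ENNReal.ofReal (2 ^ finrank ℝ V) *
            (ENNReal.ofReal ((1 / 2) ^ finrank ℝ V) * volume K) := by
            rw [← mul_assoc, ← ENNReal.ofReal_mul (by positivity), ← mul_pow]
            norm_num
        _ ≤ _ := mul_le_mul_right h4 _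
    exact absurd hsmall (not_lt.2 h5)
  set W : ℝ := ℓ z - ℓ q with hWd
  set h : ℝ := ℓ z - s with hhd
  have hh : 0 ≤ h := by linarith
  have hWp : 0 < W := by linarith
  -- the base
  set B : Set V := {x | x ∈ K ∧ ℓ x = s} with hB
  have hBc : Convex ℝ B := by
    intro x hx y hy a b ha hb hab
    refine ⟨hc hx.1 hy.1 ha hb hab, ?_⟩
    rw [map_add, map_smul, map_smul, hx.2, hy.2, smul_eq_mul, smul_eq_mul, ← add_mul, hab, one_mul]
  have hBk : IsCompact B := hcomp.inter_right (isClosed_eq ℓ.continuous continuous_const)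
  have hBne : B.Nonempty := by
    refine ⟨(1 - h / W) • z + (h / W) • q, hc hz hq ?_ (by positivity) (by ring), ?_⟩
    · rw [sub_nonneg, div_le_one hWp]; linarith
    · rw [map_add, map_smul, map_smul, smul_eq_mul, smul_eq_mul]
      have : h / W * W = h := div_mul_cancel₀ _ hWp.ne'
      have e : (1 - h / W) * ℓ z + h / W * ℓ q = ℓ z - h / W * W := by rw [hWd]; ring
      rw [e, this, hhd]; ring
  obtain ⟨b, hb, hrad⟩ := hRAD V B hBc hBk hBne hD
  rw [← hDd] at hrad
  set y : V := (1 / 2 : ℝ) • z + (1 / 2 : ℝ) • b with hy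
  have hyK : y ∈ K := hc hz hb.1 (by norm_num) (by norm_num) (by norm_num)
  have hly : 2 * ℓ y = ℓ z + s := by
    rw [hy, map_add, map_smul, map_smul, hb.2, smul_eq_mul, smul_eq_mul]; ring
  refine ⟨y, ?_, ?_, by rw [hsup, hly]; ring⟩
  · rintro w ⟨hw, hws⟩
    set C : ℝ := 4 * (D + 1) with hC
    have hCp : 0 < C := by rw [hC]; linarith
    set ι : ℝ := 1 / C with hι
    have hιp : 0 < ι := by rw [hι]; positivity
    have hι1 : ι ≤ 1 := by
      rw [hι, div_le_one hCp, hC]; linarith
    have hιC : C * ι = 1 := by rw [hι]; field_simp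
    refine ⟨ι • (w - y), ?_, ?_, ?_⟩
    · rw [smul_smul, hιC, one_smul]; abel
    · have e : y + ι • (w - y) = (1 - ι) • y + ι • w := by module
      rw [e]
      exact hc hyK hw (by linarith) hιp.le (by ring)
    · -- the reflected point
      set τ : ℝ := ℓ z - ℓ w with hτ
      have hτ0 : 0 ≤ τ := by linarith [hzmax w hw]
      have hτh : τ ≤ h := by rw [hτ, hhd]; linarith
      have hWτ : 0 < W - τ := by linarith
      set lam : ℝ := (h - τ) / (W - τ) with hlam
      have hlam0 : 0 ≤ lam := div_nonneg (by linarith) hWτ.le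
      have hlam1 : lam ≤ 1 / 2 := by
        rw [hlam, div_le_iff₀ hWτ]; linarith
      have hlamW : lam * (W - τ) = h - τ := by rw [hlam]; exact div_mul_cancel₀ _ hWτ.ne'
      set w' : V := (1 - lam) • w + lam • q with hw'
      have hw'B : w' ∈ B := by
        refine ⟨hc hw hq (by linarith) hlam0 (by ring), ?_⟩
        rw [hw', map_add, map_smul, map_smul, smul_eq_mul, smul_eq_mul]
        have e : (1 - lam) * ℓ w + lam * ℓ q = ℓ w - lam * (W - τ) := by rw [hWd, hτ]; ring
        rw [e, hlamW, hhd, hτ]; ring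
      set b' : V := b + D⁻¹ • (b - w') with hb'
      have hb'B : b' ∈ B := hrad w' hw'B
      set κ : ℝ := 1 / (C * (1 - lam)) with hκ
      have h1l : 0 < 1 - lam := by linarith
      have hκp : 0 < κ := by rw [hκ]; positivity
      have hκι : κ * (1 - lam) = ι := by rw [hκ, hι]; field_simp
      have hκD : κ * (D + 1) ≤ 1 / 2 := by
        rw [hκ, hC, one_div, inv_mul_le_iff₀ (by positivity)]
        nlinarith
      have hDD : D * D⁻¹ = 1 := mul_inv_cancel₀ (by linarith)
      have hkey : (κ * D) • b' = (κ * (D + 1)) • b - ι • w - (κ * lam) • q := by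
        have e1 : (κ * D) • b' = (κ * D) • b + κ • (b - w') := by
          rw [hb', smul_add, smul_smul, mul_assoc, hDD, mul_one]
        rw [e1, hw', ← hκι]
        module
      have e : y - ι • (w - y) = ((1 + ι) / 2) • z + ((1 + ι) / 2 - κ * (D + 1)) • b +
          (κ * D) • b' + (κ * lam) • q := by
        rw [hkey, hy]
        module
      rw [e]
      refine comb4 hc hz hb.1 hb'B.1 hq (by positivity) (by linarith) (by positivity)
        (by positivity) ?_
      have : κ * (1 - lam) = ι := hκι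
      linarith
  · rintro x ⟨p, rfl, h1, h2⟩
    refine ⟨by rw [one_smul]; exact h1, ?_⟩
    have h3 := hzmax _ h2
    rw [map_sub] at h3
    rw [one_smul, map_add]
    linarith

end Pool.Agent.W397.RP
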